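import Pool.Agent.H5.PRK.S3
import Pool.Agent.H16.AVS.EMB

/-!
# PRK: CGKK (the class group bound)
-/

set_option autoImplicit false

namespace Pool.PRK

open Polynomial Matrix Pool.HYP Pool.TOW Pool.AVS Pool.T1 IsDedekindDomain

namespace CK

theorem isSep {K : Type} [Field K] (g : K[X]) [Fact (Irreducible g)] (hm : g.Monic)
    (hsep : g.Separable) : Algebra.IsSeparable K (AdjoinRoot g) := by
  have h1 : minpoly K (AdjoinRoot.root g) = g := by
    rw [AdjoinRoot.minpoly_root hm.ne_zero, hm.leadingCoeff, inv_one, C_1, mul_one]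
  have h2 : IsSeparable K (AdjoinRoot.root g) := by
    rw [IsSeparable, h1]
    exact hsep
  have h3 : Algebra.IsSeparable K (IntermediateField.adjoin K {AdjoinRoot.root g}) := by
    rw [IntermediateField.isSeparable_adjoin_iff_isSeparable]
    intro x hx
    rw [Set.mem_singleton_iff.mp hx]
    exact h2
  rw [IntermediateField.adjoin_root_eq_top] at h3
  exact AlgEquiv.Algebra.isSeparable IntermediateField.topEquiv

/-- A polynomial in the extension of an ideal has coefficients in the ideal. -/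
theorem zer_of_mem {R : Type} [CommRing R] {S : Type} [CommRing S] [Algebra R S] (P : Ideal R)
    (φ : R[X] →ₐ[R] S) (hφ : Function.Surjective φ) (x : S) (hx : x ∈ P.map (algebraMap R S)) :
    ∃ p : R[X], Zer P p ∧ φ p = x := by
  refine Submodule.span_induction (p := fun x _ => ∃ p : R[X], Zer P p ∧ φ p = x)
    ?_ ?_ ?_ ?_ hx
  · rintro _ ⟨a, ha, rfl⟩
    refine ⟨C a, ?_, ?_⟩
    · intro i
      rw [coeff_C]
      split_ifs
      · exact ha
      · exact P.zero_mem
    · exact φ.commutes a
  · exact ⟨0, fun i => by rw [coeff_zero]; exact P.zero_mem, map_zero _⟩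
  · rintro x y _ _ ⟨p, hp, rfl⟩ ⟨q, hq, rfl⟩
    exact ⟨p + q, fun i => by rw [coeff_add]; exact P.add_mem (hp i) (hq i), map_add _ _ _⟩
  · rintro a x _ ⟨p, hp, rfl⟩
    obtain ⟨t, rfl⟩ := hφ a
    refine ⟨t * p, fun i => ?_, by rw [map_mul, smul_eq_mul]⟩
    rw [coeff_mul]
    exact P.sum_mem fun j _ => P.mul_mem_left _ (hp _)

end CK

open CK in
theorem cgkk : CGKKStmt := by
  classical
  intro hG hN hA hDA hDB hDK hQ hIRR R _ _ K _ _ _ O' π hGR hCl g hg D h hD f hf hfin
  obtain ⟨hfam, hsm⟩ := hf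
  obtain ⟨hirr, hsep⟩ := hIRR R K O' π hGR g D h hg hD f hfam
  have hfm : f.Monic := hfam.1.1
  have hfd : f.natDegree = 2 * g + 1 := hfam.1.2.1
  have hF : Fact (Irreducible (fk K f)) := ⟨hirr⟩
  have hKm : (fk K f).Monic := hfm.map _
  have hKd : (fk K f).natDegree = 2 * g + 1 := by rw [hfm.natDegree_map, hfd]
  let L := AdjoinRoot (fk K f)
  let pb := AdjoinRoot.powerBasis' hKm
  have hfinK : FiniteDimensional K L := Module.Finite.of_basis pb.basis
  have hrk : Module.finrank K L = 2 * g + 1 := by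
    rw [Module.finrank_eq_card_basis pb.basis, Fintype.card_fin, ← hKd]
    rfl
  have hsepL : Algebra.IsSeparable K L := isSep _ hKm hsep
  have hst : IsScalarTower R K L := inferInstance
  let O := integralClosure R L
  have hded : IsDedekindDomain O := integralClosure.isDedekindDomain R K L
  have hfr : IsFractionRing O L := integralClosure.isFractionRing_of_finite_extension K L
  have hmf : Module.Finite R O := IsIntegralClosure.finite R K L O
  have htL : Module.IsTorsionFree R L := .trans_faithfulSMul R K L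
  have htf : Module.IsTorsionFree R O := IsIntegralClosure.isTorsionFree R L
  have hrkO : Module.finrank R O = 2 * g + 1 := by
    rw [← hrk, IsFractionRing.finrank_eq R K O L]
  have hclO : Finite (ClassGroup O) := hCl f hfm hsep
  have hclR : Finite (ClassGroup R) := hGR.cl
  -- the homomorphism from the polynomials
  have hint : IsIntegral R (AdjoinRoot.root (fk K f)) := by
    refine ⟨f, hfm, ?_⟩
    have h1 := AdjoinRoot.eval₂_root (fk K f)
    rw [Polynomial.eval₂_map] at h1
    exact h1
  let θ : O := ⟨AdjoinRoot.root (fk K f), hint⟩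
  let φ : R[X] →ₐ[R] O := aeval θ
  have hφ : ∀ p : R[X], ((φ p : O) : L) = AdjoinRoot.mk (fk K f) (fk K p) := by
    intro p
    have h1 : ((φ p : O) : L) = aeval (AdjoinRoot.root (fk K f)) p := by
      have := Polynomial.aeval_algHom_apply (integralClosure R L).val θ p
      exact this.symm
    rw [h1, ← AdjoinRoot.aeval_eq, aeval_map_algebraMap]
  have hφs : Function.Surjective φ := by
    intro x
    obtain ⟨p, hp⟩ := hDK hDA hDB R K f hfm hirr hsm (x : L) x.2
    refine ⟨p, Subtype.ext ?_⟩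
    rw [hφ, hp]
  have hφk : ∀ p, φ p = 0 ↔ f ∣ p := by
    intro p
    rw [← Subtype.coe_inj, hφ]
    have h0 : ((0 : O) : L) = 0 := rfl
    rw [h0, AdjoinRoot.mk_eq_zero]
    exact Polynomial.map_dvd_map _ (IsFractionRing.injective R K) hfm
  have hnorm : ∀ x : R, Algebra.intNorm R O (φ (C x - X)) = f.eval x := by
    intro x
    apply IsFractionRing.injective R K
    rw [Algebra.algebraMap_intNorm (L := L)]
    have h9 : algebraMap O L (φ (C x - X)) =
        AdjoinRoot.mk (fk K f) (C (algebraMap R K x) - X) := by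
      change ((φ (C x - X) : O) : L) = _
      rw [hφ]
      simp only [fk, Polynomial.map_sub, map_C, map_X]
    rw [h9, Pool.Agent.H16.AVS.norm_sub _ hKm]
    simp only [fk, eval_map, eval₂_at_apply]
  -- the primes
  have hT : ∀ P : {P : HeightOneSpectrum R // P ∈ D.T}, ∃ q : Ideal O, Prime q ∧
      P.1.asIdeal.map (algebraMap R O) ≤ q ∧ Ideal.relNorm R q = P.1.asIdeal ^ (2 * g) := by
    intro P
    exact hQ R O g P.1 (D.c P.1) (D.γ P.1) f φ hg hrkO hφs hφk hnorm (hD.2.1 P.1 P.2)
      (hfam.2.2.1 P.1 P.2)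
  choose q hqp hqP hqn using hT
  have hcopP : ∀ P P' : HeightOneSpectrum R, P.asIdeal ≠ P'.asIdeal →
      P.asIdeal ⊔ P'.asIdeal = ⊤ := by
    intro P P' hne
    exact Ideal.isMaximal_def.mp P.isMaximal |>.2 _ (lt_of_le_of_ne le_sup_left (by
      intro h
      have h1 : P'.asIdeal ≤ P.asIdeal := by rw [h]; exact le_sup_right
      exact hne (P'.isMaximal.eq_of_le P.isMaximal.ne_top h1).symm))
  have hqinj : Function.Injective q := by
    intro P P' hPP
    by_contra hcon
    have hne : P.1.asIdeal ≠ P'.1.asIdeal := by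
      intro h1
      exact hcon (Subtype.ext (HeightOneSpectrum.ext h1))
    have h1 := hcopP P.1 P'.1 hne
    have h2 : (⊤ : Ideal O) ≤ q P := by
      have h3 := congrArg (Ideal.map (algebraMap R O)) h1
      rw [Ideal.map_sup, Ideal.map_top] at h3
      rw [← h3]
      refine sup_le (hqP P) ?_
      rw [hPP]
      exact hqP P'
    exact (hqp P).not_isUnit (Ideal.isUnit_iff.mpr (top_le_iff.mp h2))
  obtain ⟨X, hX, u, hcard, hu0, husq, huinj, hloc⟩ := hA hG hN R K L O g hrk
    {P : HeightOneSpectrum R // P ∈ D.T} q (fun P => P.1.asIdeal) hqp hqinj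
    (fun P => P.1.isPrime) (fun P => P.1.ne_bot) hqn hqP
  have huu : ∀ x, IsUnit (u x) := fun x => isUnit_iff_ne_zero.mpr (hu0 x)
  let U : X → Lˣ := fun x => (huu x).unit
  let ξ : X → Lˣ ⧸ SqG (fk K f) := fun x => QuotientGroup.mk (U x)
  have hinj : Function.Injective ξ := by
    intro x x' h
    have h5 : (U x)⁻¹ * U x' ∈ SqG (fk K f) := QuotientGroup.eq.mp h
    obtain ⟨v, hv⟩ := h5
    refine huinj x x' ⟨((v⁻¹ : Lˣ) : L), ?_⟩
    have h6 : U x = U x' * v⁻¹ ^ 2 := by
      have h7 : v ^ 2 = (U x)⁻¹ * U x' := hv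
      rw [inv_pow, h7, _root_.mul_inv_rev, inv_inv, mul_inv_cancel_left]
    have h8 := congrArg (fun z : Lˣ => (z : L)) h6
    simp only [Units.val_mul, Units.val_pow_eq_pow_val] at h8
    exact h8
  have hcop0 : ∀ (z : L), z ≠ 0 → ∀ p : K[X], AdjoinRoot.mk (fk K f) p = z →
      IsCoprime p (fk K f) := by
    intro z hz p hp
    rw [isCoprime_comm, hirr.coprime_iff_not_dvd]
    intro hd
    exact hz (hp ▸ AdjoinRoot.mk_eq_zero.mpr hd)
  have hmem : ∀ x, ξ x ∈ RcG K D.T f := by
    intro x
    obtain ⟨α, hα⟩ := AdjoinRoot.mk_surjective (u x)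
    refine ⟨U x, α, rfl, hα, hcop0 _ (hu0 x) α hα, ?_, ?_⟩
    · change IsSquare (Algebra.norm K (AdjoinRoot.mk (fk K f) α))
      rw [hα]
      exact husq x
    · intro P hPT
      obtain ⟨s, w, w', r, hs0, hs, hr, hw⟩ := hloc x P.asIdeal P.isPrime P.ne_bot
        (fun i h => hPT (by rw [HeightOneSpectrum.ext h]; exact i.2))
      obtain ⟨s', hs'⟩ := AdjoinRoot.mk_surjective s
      obtain ⟨p, rfl⟩ := hφs w
      obtain ⟨p', rfl⟩ := hφs w'
      obtain ⟨r', hr', rfl⟩ := zer_of_mem P.asIdeal φ hφs r hr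
      refine ⟨s', p, hcop0 _ hs0 s' hs', ?_, ?_⟩
      · rw [← AdjoinRoot.mk_eq_zero, map_sub, map_mul, map_pow, sub_eq_zero, hα, hs', ← hφ]
        exact hs
      · have h9 : φ (p * p' - 1 - r') = 0 := by
          rw [map_sub, map_sub, map_mul, map_one, sub_sub, sub_eq_zero]
          exact hw
        obtain ⟨t, ht⟩ := (hφk _).mp h9
        have h10 : md P.asIdeal r' = 0 := by
          ext i
          rw [coeff_map, coeff_zero]
          exact Ideal.Quotient.eq_zero_iff_mem.mpr (hr' i)
        have h11 := congrArg (md P.asIdeal) ht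
        simp only [md, Polynomial.map_sub, Polynomial.map_mul, Polynomial.map_one] at h11 h10 ⊢
        rw [h10, sub_zero] at h11
        refine ⟨p'.map (Ideal.Quotient.mk P.asIdeal), -(t.map (Ideal.Quotient.mk P.asIdeal)), ?_⟩
        linear_combination h11
  calc 2 ^ D.T.card = 2 ^ Fintype.card {P : HeightOneSpectrum R // P ∈ D.T} := by
        rw [Fintype.card_coe]
    _ ≤ Nat.card X := hcard
    _ = (Set.range ξ).ncard := by
      rw [← Set.image_univ, Set.ncard_image_of_injective _ hinj, Set.ncard_univ]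
    _ ≤ (RcG K D.T f).ncard := Set.ncard_le_ncard (Set.range_subset_iff.mpr hmem) hfin

end Pool.PRK

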