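import Pool.Agent.H5.PRK.S3

/-!
# PRK: DEDA (Dedekind's criterion)
-/

set_option autoImplicit false

namespace Pool.PRK

open Polynomial Matrix Pool.HYP Pool.TOW Pool.AVS Pool.T1 IsDedekindDomain

namespace DD

variable {R : Type} [CommRing R]

theorem zer_iff (P : Ideal R) (p : R[X]) : Zer P p ↔ md P p = 0 := by
  constructor
  · intro h
    ext i
    rw [coeff_map, coeff_zero]
    exact Ideal.Quotient.eq_zero_iff_mem.mpr (h i)
  · intro h i
    have := congrArg (fun z => z.coeff i) h
    simp only [coeff_map, coeff_zero] at this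
    exact Ideal.Quotient.eq_zero_iff_mem.mp this

/-- A polynomial with coefficients in `P` is in the ideal generated by `P`. -/
theorem mk_mem (P : Ideal R) (f p : R[X]) (h : Zer P p) :
    AdjoinRoot.mk f p ∈ P.map (algebraMap R (AdjoinRoot f)) := by
  rw [p.as_sum_range, map_sum]
  refine Ideal.sum_mem _ fun i _ => ?_
  rw [← C_mul_X_pow_eq_monomial, map_mul]
  refine Ideal.mul_mem_right _ _ ?_
  exact Ideal.mem_map_of_mem _ (h i)

theorem sub_zer (P : Ideal R) (p q : R[X]) (h : md P p = md P q) : Zer P (p - q) := by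
  rw [zer_iff]
  simp only [md, Polynomial.map_sub]
  exact sub_eq_zero.mpr h

theorem md_surj (P : Ideal R) (q : (R ⧸ P)[X]) : ∃ p : R[X], md P p = q :=
  Polynomial.map_surjective _ Ideal.Quotient.mk_surjective q

/-- Division by a monic polynomial of bigger degree. -/
theorem zero_of_dvd {k : Type} [Field k] {γ s : k[X]} (h : γ ∣ s) (hd : s.degree < γ.degree) :
    s = 0 := by
  by_contra hs
  exact absurd (Polynomial.degree_le_of_dvd h hs) (not_le.mpr hd)

/-- A maximal ideal above `P`. -/
theorem max_gen [IsDomain R] (P : Ideal R) (hP : P.IsMaximal) (f : R[X]) (hf : f.Monic)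
    (M : Ideal (AdjoinRoot f)) (hM : M.IsMaximal)
    (hPM : P.map (algebraMap R (AdjoinRoot f)) ≤ M) :
    ∃ γ : R[X], γ.Monic ∧ Irreducible (md P γ) ∧
      ∀ p, AdjoinRoot.mk f p ∈ M ↔ md P γ ∣ md P p := by
  classical
  let _ : Field (R ⧸ P) := Ideal.Quotient.field _
  let ρ : R[X] →+* (R ⧸ P)[X] := Polynomial.mapRingHom (Ideal.Quotient.mk P)
  have hρ : Function.Surjective ρ := Polynomial.map_surjective _ Ideal.Quotient.mk_surjective
  let m : Ideal R[X] := M.comap (AdjoinRoot.mk f)
  have hm : m.IsMaximal := Ideal.comap_isMaximal_of_surjective _ AdjoinRoot.mk_surjective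
  have hker : RingHom.ker ρ ≤ m := by
    intro p hp
    rw [RingHom.mem_ker] at hp
    exact hPM (mk_mem P f p ((zer_iff P p).mpr hp))
  let J : Ideal (R ⧸ P)[X] := m.map ρ
  have hJ : ∀ p, ρ p ∈ J ↔ p ∈ m := by
    intro p
    constructor
    · intro h
      have h1 : p ∈ J.comap ρ := h
      rw [Ideal.comap_map_of_surjective ρ hρ] at h1
      have h2 : Ideal.comap ρ ⊥ ≤ m := hker
      rwa [sup_eq_left.mpr h2] at h1
    · exact fun h => Ideal.mem_map_of_mem _ h
  have hJm : J.IsPrime := by
    refine Ideal.map_isPrime_of_surjective hρ ?_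
    exact hker
  have hf0 : ρ f ≠ 0 := (hf.map (Ideal.Quotient.mk P)).ne_zero
  have hfJ : ρ f ∈ J := by
    rw [hJ]
    change AdjoinRoot.mk f f ∈ M
    rw [AdjoinRoot.mk_self]
    exact M.zero_mem
  let g := Submodule.IsPrincipal.generator J
  have hg : Ideal.span {g} = J := Ideal.span_singleton_generator J
  have hg0 : g ≠ 0 := by
    intro h
    rw [h] at hg
    rw [← hg] at hfJ
    exact hf0 (by simpa using hfJ)
  have hgi : Irreducible g := by
    have h1 : (Ideal.span {g}).IsPrime := by rw [hg]; exact hJm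
    rw [Ideal.span_singleton_prime hg0] at h1
    exact h1.irreducible
  let g' := normalize g
  have hg'm : g'.Monic := Polynomial.monic_normalize hg0
  have hg'a : Associated g g' := (normalize_associated g).symm
  have hl : g' ∈ Polynomial.lifts (Ideal.Quotient.mk P) := by
    rw [Polynomial.mem_lifts]
    exact md_surj P g'
  obtain ⟨γ, hγ, _, hγm⟩ := Polynomial.lifts_and_natDegree_eq_and_monic hl hg'm
  refine ⟨γ, hγm, ?_, ?_⟩
  · change Irreducible (γ.map _)
    rw [hγ]
    exact hg'a.irreducible hgi
  · intro p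
    change p ∈ m ↔ γ.map _ ∣ _
    rw [hγ, ← hJ, ← hg, Ideal.mem_span_singleton]
    exact hg'a.dvd_iff_dvd_left

end DD

open DD in
theorem deda : DEDAStmt := by
  classical
  intro R _ _ f P hf hS M hM hPM
  have hPmax : P.asIdeal.IsMaximal := P.isMaximal
  let _ : Field (R ⧸ P.asIdeal) := Ideal.Quotient.field _
  obtain ⟨γ, hγm, hγi, hγ⟩ := max_gen P.asIdeal hPmax f hf M hM hPM
  have hγm' : (md P.asIdeal γ).Monic := hγm.map _
  have hdeg : (md P.asIdeal γ).degree = γ.degree := hγm.degree_map _
  set PB := P.asIdeal.map (algebraMap R (AdjoinRoot f)) with hPB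
  let q := f /ₘ γ
  let r := f %ₘ γ
  have hqr : f = γ * q + r := by
    have := modByMonic_add_div f γ
    rw [add_comm] at this
    exact this.symm
  have hrd : r.degree < γ.degree := degree_modByMonic_lt f hγm
  -- `r` is zero modulo `P`
  have hff : md P.asIdeal γ ∣ md P.asIdeal f := by
    rw [← hγ, AdjoinRoot.mk_self]
    exact M.zero_mem
  have hr0 : md P.asIdeal r = 0 := by
    have h1 : md P.asIdeal γ ∣ md P.asIdeal r := by
      have h2 : md P.asIdeal r = md P.asIdeal f - md P.asIdeal γ * md P.asIdeal q := by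
        rw [hqr]
        simp only [md, Polynomial.map_add, Polynomial.map_mul]
        ring
      rw [h2]
      exact dvd_sub hff (Dvd.intro _ rfl)
    refine zero_of_dvd h1 ?_
    rw [hdeg]
    exact lt_of_le_of_lt (degree_map_le) hrd
  have hrZ : Zer P.asIdeal r := (zer_iff _ _).mpr hr0
  have hMe : M = PB ⊔ Ideal.span {AdjoinRoot.mk f γ} := by
    apply le_antisymm
    · intro x hx
      obtain ⟨p, rfl⟩ := AdjoinRoot.mk_surjective x
      obtain ⟨t, ht⟩ := (hγ p).mp hx
      obtain ⟨t', rfl⟩ := md_surj P.asIdeal t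
      have h1 : Zer P.asIdeal (p - γ * t') := by
        refine sub_zer _ _ _ ?_
        rw [ht]
        simp only [md, Polynomial.map_mul]
      have h2 := mk_mem P.asIdeal f _ h1
      have h3 : AdjoinRoot.mk f p = AdjoinRoot.mk f (p - γ * t') +
          AdjoinRoot.mk f t' * AdjoinRoot.mk f γ := by
        rw [← map_mul, ← map_add]
        congr 1
        ring
      rw [h3]
      exact Submodule.add_mem_sup h2 (Ideal.mul_mem_left _ _ (Ideal.mem_span_singleton_self _))
    · refine sup_le hPM ?_
      rw [Ideal.span_singleton_le_iff_mem, hγ]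
  have hγM : AdjoinRoot.mk f γ ∈ M := by rw [hγ]
  have hmkr : AdjoinRoot.mk f γ * AdjoinRoot.mk f q = -AdjoinRoot.mk f r := by
    have h1 : AdjoinRoot.mk f (γ * q + r) = 0 := by
      rw [← hqr]
      exact AdjoinRoot.mk_self
    rw [map_add, map_mul] at h1
    linear_combination h1
  let N := PB ⊔ Ideal.span {AdjoinRoot.mk f q}
  refine ⟨N, le_antisymm ?_ ?_⟩
  · rw [hMe]
    simp only [N, Ideal.sup_mul, Ideal.mul_sup]
    refine sup_le (sup_le Ideal.mul_le_left Ideal.mul_le_right) (sup_le ?_ ?_)
    · exact Ideal.mul_le_left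
    · rw [Ideal.span_singleton_mul_span_singleton, Ideal.span_singleton_le_iff_mem, hmkr]
      exact neg_mem (mk_mem P.asIdeal f r hrZ)
  · have hPN : PB ≤ N := le_sup_left
    have hqN : AdjoinRoot.mk f q ∈ N := Ideal.mem_sup_right (Ideal.mem_span_singleton_self _)
    have hPMN : PB * M ≤ M * N := by
      rw [mul_comm]
      exact Ideal.mul_mono_right hPN
    by_cases hc : md P.asIdeal γ ∣ md P.asIdeal q
    · -- the ramified case
      obtain ⟨a', ha'⟩ := hc
      obtain ⟨a, rfl⟩ := md_surj P.asIdeal a'
      have hb : Zer P.asIdeal (q - γ * a) := by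
        refine sub_zer _ _ _ ?_
        rw [ha']
        simp only [md, Polynomial.map_mul]
      have hr2 : ¬ Zer (P.asIdeal ^ 2) r := by
        intro h
        refine hS ⟨γ, a, q - γ * a, r, hγm, hγi, hb, h, ?_⟩
        nth_rewrite 1 [hqr]
        ring
      simp only [Zer, not_forall] at hr2
      obtain ⟨i, hi⟩ := hr2
      set ϖ := r.coeff i with hϖ
      have hPp : Prime P.asIdeal := P.prime
      have hJ : Ideal.span {ϖ} ⊔ P.asIdeal ^ 2 = P.asIdeal := by
        have hle : Ideal.span {ϖ} ⊔ P.asIdeal ^ 2 ≤ P.asIdeal := by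
          refine sup_le ?_ (Ideal.pow_le_self two_ne_zero)
          rw [Ideal.span_singleton_le_iff_mem]
          exact hrZ i
        have hd : Ideal.span {ϖ} ⊔ P.asIdeal ^ 2 ∣ P.asIdeal ^ 2 :=
          Ideal.dvd_iff_le.mpr le_sup_right
        obtain ⟨k, hk, hk'⟩ := (dvd_prime_pow hPp 2).mp hd
        rw [associated_iff_eq] at hk'
        interval_cases k
        · rw [hk', pow_zero, Ideal.one_eq_top, top_le_iff] at hle
          exact absurd hle hPmax.ne_top
        · rw [hk', pow_one]
        · exfalso
          apply hi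
          rw [← hk']
          exact Ideal.mem_sup_left (Ideal.mem_span_singleton_self _)
      have hcoef : ∀ j, ∃ s : R, r.coeff j - ϖ * s ∈ P.asIdeal ^ 2 := by
        intro j
        have h1 : r.coeff j ∈ Ideal.span {ϖ} ⊔ P.asIdeal ^ 2 := by
          rw [hJ]
          exact hrZ j
        obtain ⟨y, hy, z, hz, hyz⟩ := Submodule.mem_sup.mp h1
        obtain ⟨s, rfl⟩ := Ideal.mem_span_singleton'.mp hy
        refine ⟨s, ?_⟩
        rw [← hyz]
        have : s * ϖ + z - ϖ * s = z := by ring
        rw [this]
        exact hz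
      choose s hs using hcoef
      let S : R[X] := ∑ j ∈ Finset.range γ.natDegree, monomial j (s j)
      have hScoeff : ∀ j, S.coeff j = if j < γ.natDegree then s j else 0 := by
        intro j
        simp only [S, finsetSum_coeff, coeff_monomial]
        rw [Finset.sum_ite_eq']
        simp only [Finset.mem_range]
      have hγnd : γ.degree = (γ.natDegree : WithBot ℕ) := degree_eq_natDegree hγm.ne_zero
      have hrc : ∀ j, γ.natDegree ≤ j → r.coeff j = 0 := by
        intro j hj
        refine coeff_eq_zero_of_degree_lt (lt_of_lt_of_le hrd ?_)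
        rw [hγnd]
        exact_mod_cast hj
      have hilt : i < γ.natDegree := by
        by_contra h
        push Not at h
        apply hi
        rw [hϖ, hrc i h]
        exact Ideal.zero_mem _
      have hrS : Zer (P.asIdeal ^ 2) (r - C ϖ * S) := by
        intro j
        rw [coeff_sub, coeff_C_mul, hScoeff]
        split_ifs with h
        · exact hs j
        · push Not at h
          rw [hrc j h, mul_zero, sub_zero]
          exact Ideal.zero_mem _
      have hS0 : md P.asIdeal S ≠ 0 := by
        intro h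
        have h1 := (zer_iff _ _).mpr h i
        rw [hScoeff, if_pos hilt] at h1
        apply hi
        have h2 := hs i
        rw [← hϖ] at h2
        have h3 : ϖ * s i ∈ P.asIdeal ^ 2 := by
          rw [pow_two]
          exact Ideal.mul_mem_mul (hrZ i) h1
        have h4 := Ideal.add_mem _ h2 h3
        rwa [sub_add_cancel] at h4
      have hSd : (md P.asIdeal S).degree < (md P.asIdeal γ).degree := by
        rw [hdeg, hγnd]
        refine (degree_lt_iff_coeff_zero _ _).mpr fun j hj => ?_
        rw [coeff_map, hScoeff, if_neg (not_lt.mpr hj), map_zero]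
      have hcop : IsCoprime (md P.asIdeal γ) (md P.asIdeal S) := by
        rw [hγi.coprime_iff_not_dvd]
        intro h
        exact hS0 (zero_of_dvd h hSd)
      obtain ⟨u', v', huv⟩ := hcop
      obtain ⟨u, rfl⟩ := md_surj P.asIdeal u'
      obtain ⟨v, rfl⟩ := md_surj P.asIdeal v'
      have hz : Zer P.asIdeal (1 - (u * γ + v * S)) := by
        refine sub_zer _ _ _ ?_
        simp only [md, Polynomial.map_add, Polynomial.map_mul, Polynomial.map_one] at huv ⊢
        exact huv.symm
      have hϖP : algebraMap R (AdjoinRoot f) ϖ ∈ PB := Ideal.mem_map_of_mem _ (hrZ i)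
      have hP2 : (P.asIdeal ^ 2).map (algebraMap R (AdjoinRoot f)) ≤ M * N := by
        rw [Ideal.map_pow, pow_two]
        exact Ideal.mul_mono hPM hPN
      have hϖm : algebraMap R (AdjoinRoot f) ϖ ∈ M * N := by
        have h1 : algebraMap R (AdjoinRoot f) ϖ =
            algebraMap R (AdjoinRoot f) ϖ * AdjoinRoot.mk f (1 - (u * γ + v * S)) +
            AdjoinRoot.mk f u * (AdjoinRoot.mk f γ * algebraMap R (AdjoinRoot f) ϖ) +
            (-AdjoinRoot.mk f v) * AdjoinRoot.mk f (r - C ϖ * S) +
            (-AdjoinRoot.mk f v) * (AdjoinRoot.mk f γ * AdjoinRoot.mk f q) := by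
          rw [hmkr]
          have h2 : algebraMap R (AdjoinRoot f) ϖ = AdjoinRoot.mk f (C ϖ) := rfl
          rw [h2]
          simp only [map_sub, map_add, map_mul, map_one]
          ring
        rw [h1]
        refine Ideal.add_mem _ (Ideal.add_mem _ (Ideal.add_mem _ ?_ ?_) ?_) ?_
        · refine Ideal.mul_mono hPM hPN (Ideal.mul_mem_mul hϖP (mk_mem P.asIdeal f _ hz))
        · exact Ideal.mul_mem_left _ _ (Ideal.mul_mem_mul hγM (hPN hϖP))
        · exact Ideal.mul_mem_left _ _ (hP2 (mk_mem (P.asIdeal ^ 2) f _ hrS))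
        · exact Ideal.mul_mem_left _ _ (Ideal.mul_mem_mul hγM hqN)
      rw [hPB, ← hJ, Ideal.map_sup, Ideal.map_span, Set.image_singleton]
      refine sup_le ?_ hP2
      rw [Ideal.span_singleton_le_iff_mem]
      exact hϖm
    · -- the unramified case
      have hcop : IsCoprime (md P.asIdeal γ) (md P.asIdeal q) := by
        rw [hγi.coprime_iff_not_dvd]
        exact hc
      obtain ⟨u', v', huv⟩ := hcop
      obtain ⟨u, rfl⟩ := md_surj P.asIdeal u'
      obtain ⟨v, rfl⟩ := md_surj P.asIdeal v'
      have hz : Zer P.asIdeal (1 - (u * γ + v * q)) := by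
        refine sub_zer _ _ _ ?_
        simp only [md, Polynomial.map_add, Polynomial.map_mul, Polynomial.map_one] at huv ⊢
        exact huv.symm
      have htop : M ⊔ N = ⊤ := by
        rw [Ideal.eq_top_iff_one]
        have h1 : (1 : AdjoinRoot f) = (AdjoinRoot.mk f (1 - (u * γ + v * q)) +
            AdjoinRoot.mk f u * AdjoinRoot.mk f γ) + AdjoinRoot.mk f v * AdjoinRoot.mk f q := by
          simp only [map_sub, map_add, map_mul, map_one]
          ring
        rw [h1]
        refine Submodule.add_mem_sup (Ideal.add_mem _ (hPM (mk_mem P.asIdeal f _ hz))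
          (Ideal.mul_mem_left _ _ hγM)) (Ideal.mul_mem_left _ _ hqN)
      calc PB = PB * (M ⊔ N) := by rw [htop, Ideal.mul_top]
        _ = PB * M ⊔ PB * N := Ideal.mul_sup _ _ _
        _ ≤ M * N := sup_le hPMN (Ideal.mul_mono_left hPM)

end Pool.PRK

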