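import Pool.Agent.H79.PRK.S6

/-!
# PRK: statements of the modules, part 3 (the class group: there are at least `2^#T` classes)

`f` is monic, irreducible over `K` and smooth, so the integral closure `O` of `R` in
`L = K[x]/(f)` is `R[x]/(f)`.  Over `P ∈ T` there is the prime `q_P` of degree `2 g`.  The pairs
`(S, c)`, `S ⊆ T`, `c` an ideal class of `O` with `c² ∏ q_P = 1` and `N(c) ∏ P^g = 1`, are at least
`2^#T`; if `I` has class `c` then `I² ∏ q_P = (u)` and `N(u) = v a²`, `v` a unit of `R`: the class of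
`v u` has square norm.
-/

set_option autoImplicit false

namespace Pool.PRK

open Polynomial Matrix Pool.HYP Pool.TOW Pool.AVS Pool.T1 IsDedekindDomain

open scoped nonZeroDivisors

/-- GCTK: counting in finite commutative groups.  (Let `W` be the set of the `(a, b)` with
`N a = b²`.  `#W ≤ #C`: for `(a, b) ∈ W`, `b = N (e b * a^(-m))` is a norm; choose `s b` with
`N (s b) = b`; then `(a, b) ↦ a * (s b)⁻¹` is injective on `W`.  The map
`(S, c) ↦ (c² ∏ g, N c ∏ h)` goes to `W`: one of its fibres has at least `2^#ι` elements, and the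
fibre of `(w₁, w₂)` that contains `(S₀, c₀)` goes injectively to the fibre of `1` by
`(S, c) ↦ (S ∆ S₀, c c₀ w₁⁻¹ ∏_(S ∩ S₀) g)`.) -/
def GCTKStmt : Prop :=
  ∀ (C D : Type) [CommGroup C] [Finite C] [CommGroup D] [Finite D] (N : C →* D) (e : D →* C)
    (m : ℕ), (∀ d, N (e d) = d ^ (2 * m + 1)) →
    ∀ (ι : Type) [Fintype ι] (g : ι → C) (h : ι → D), (∀ i, N (g i) = h i ^ 2) →
    2 ^ Fintype.card ι ≤
      Nat.card {q : Finset ι × C // q.2 ^ 2 * ∏ i ∈ q.1, g i = 1 ∧ N q.2 * ∏ i ∈ q.1, h i = 1}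

/-- NCLK: norm and extension of ideal classes.  (`ClassGroup.extendedHom`,
`Ideal.relNorm`, `ClassGroup.mk0_eq_mk0_iff`, `Ideal.relNorm_algebraMap`.) -/
def NCLKStmt : Prop :=
  ∀ (R O : Type) [CommRing R] [IsDedekindDomain R] [CommRing O] [IsDedekindDomain O]
    [Algebra R O] [Module.Finite R O] [Module.IsTorsionFree R O],
    ∃ (N : ClassGroup O →* ClassGroup R) (e : ClassGroup R →* ClassGroup O),
      (∀ (I : (Ideal O)⁰) (J : (Ideal R)⁰), (J : Ideal R) = Ideal.relNorm R (I : Ideal O) →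
        N (ClassGroup.mk0 I) = ClassGroup.mk0 J) ∧
      ∀ d, N (e d) = d ^ Module.finrank R O

/-- ABFK: the family of classes, in abstract form.  (As `Pool.PRL.CG.ideal_family` and
`abstract_family`, files CGA and CGN of `H25/PRL`, with the pairs of GCTK.) -/
def ABFKStmt : Prop :=
  GCTKStmt → NCLKStmt →
  ∀ (R K L O : Type) [CommRing R] [IsDedekindDomain R] [Field K] [Algebra R K]
    [IsFractionRing R K] [Field L] [CommRing O] [IsDedekindDomain O] [Algebra K L] [Algebra R L]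
    [IsScalarTower R K L] [Algebra R O] [Algebra O L] [IsScalarTower R O L] [IsFractionRing O L]
    [IsIntegralClosure O R L] [Module.Finite R O] [Module.IsTorsionFree R O]
    [FiniteDimensional K L] [Finite (ClassGroup O)] [Finite (ClassGroup R)] (g : ℕ),
    Module.finrank K L = 2 * g + 1 → ∀ (ι : Type) [Fintype ι] (p : ι → Ideal O) (P : ι → Ideal R),
    (∀ i, Prime (p i)) → Function.Injective p → (∀ i, (P i).IsPrime) → (∀ i, P i ≠ ⊥) →
    (∀ i, Ideal.relNorm R (p i) = P i ^ (2 * g)) →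
    (∀ i, (P i).map (algebraMap R O) ≤ p i) →
    ∃ (X : Type) (_ : Finite X) (u : X → L), 2 ^ Fintype.card ι ≤ Nat.card X ∧
      (∀ x, u x ≠ 0) ∧ (∀ x, IsSquare (Algebra.norm K (u x))) ∧
      (∀ x x', (∃ v : L, u x = u x' * v ^ 2) → x = x') ∧
      ∀ x, ∀ Q : Ideal R, Q.IsPrime → Q ≠ ⊥ → (∀ i, Q ≠ P i) →
        ∃ (s : L) (w w' r : O), s ≠ 0 ∧ u x * s ^ 2 = algebraMap O L w ∧
          r ∈ Q.map (algebraMap R O) ∧ w * w' = 1 + r

/-- DEDA: the maximal ideals of `R[x]/(f)` above `P` divide `P`, if the curve is smooth above `P`.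
(`M = (P, γ)`, `γ` monic, irreducible modulo `P`; `f = γ q + r`, `deg r < deg γ`, `r` zero modulo
`P`, `N = (P, q)`: `M N = P (P, γ, q) + (r)`.  If `q` is not divisible by `γ` modulo `P` then
`(P, γ, q) = 1`.  Otherwise some coefficient `r_i` of `r` is not in `P²`, `P = (r_i) + P²`,
`r = r_i s + (P²)`, `s` of degree `< deg γ`, nonzero modulo `P`, `u s + v γ = 1` modulo `P`, so
`r_i ∈ (r) + P M`.) -/
def DEDAStmt : Prop :=
  ∀ (R : Type) [CommRing R] [IsDedekindDomain R] (f : R[X]) (P : HeightOneSpectrum R), f.Monic →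
    ¬ Sing P.asIdeal f → ∀ M : Ideal (AdjoinRoot f), M.IsMaximal →
    P.asIdeal.map (algebraMap R (AdjoinRoot f)) ≤ M →
    ∃ N : Ideal (AdjoinRoot f), M * N = P.asIdeal.map (algebraMap R (AdjoinRoot f))

/-- DEDB: a Noetherian domain with invertible maximal ideals is integrally closed.  (`𝔠` the ideal of
the `b` with `b B[x] ⊆ B`, nonzero; if `𝔠 ≤ M`, `M N = (a)`, then `𝔠 = M 𝔠'`, `𝔠' = a⁻¹ N 𝔠`,
`𝔠' ≤ 𝔠`, so `𝔠 = M 𝔠` and `𝔠 = 0` by Nakayama's lemma.) -/
def DEDBStmt : Prop :=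
  ∀ (B L : Type) [CommRing B] [IsDomain B] [IsNoetherianRing B] [Field L] [Algebra B L]
    [IsFractionRing B L],
    (∀ M : Ideal B, M.IsMaximal → M ≠ ⊥ → ∃ (N : Ideal B) (a : B), a ≠ 0 ∧
      M * N = Ideal.span {a}) → ∀ x : L, IsIntegral B x → ∃ b : B, algebraMap B L b = x

/-- DEDK: the integral elements of `K[x]/(f)`, for a smooth curve, are in `R[x]/(f)`. -/
def DEDKStmt : Prop :=
  DEDAStmt → DEDBStmt →
  ∀ (R : Type) [CommRing R] [IsDedekindDomain R] (K : Type) [Field K] [Algebra R K]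
    [IsFractionRing R K] (f : R[X]), f.Monic → Irreducible (fk K f) → Smooth f →
    ∀ x : AdjoinRoot (fk K f), IsIntegral R x → ∃ p : R[X], x = AdjoinRoot.mk (fk K f) (fk K p)

/-- QPRK: the prime of degree `2 g` above `P`.  (`q = (P, γ)`, `q₁ = (P, x - c)`, `q q₁ = P`; the
norm of `q₁` is `P^s`, `s ≤ 1` as one of `f(c)`, `f(c + ϖ)` is not in `P²`.) -/
def QPRKStmt : Prop :=
  ∀ (R O : Type) [CommRing R] [IsDedekindDomain R] [CommRing O] [IsDedekindDomain O]
    [Algebra R O] [Module.Finite R O] [Module.IsTorsionFree R O] (g : ℕ)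
    (P : HeightOneSpectrum R) (c : R) (γ f : R[X]) (φ : R[X] →ₐ[R] O),
    1 ≤ g → Module.finrank R O = 2 * g + 1 → Function.Surjective φ →
    (∀ p, φ p = 0 ↔ f ∣ p) → (∀ x : R, Algebra.intNorm R O (φ (C x - X)) = f.eval x) →
    OkP (2 * g) P.asIdeal γ → Zer P.asIdeal (f - (X - C c) * γ) →
    ∃ q : Ideal O, Prime q ∧ P.asIdeal.map (algebraMap R O) ≤ q ∧
      Ideal.relNorm R q = P.asIdeal ^ (2 * g)

/-- CGKK: the class group bound, from its parts.  (As `cgb`, `H25/PRL/CGB`; `O` is the integral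
closure of `R` in `K[x]/(f)`.) -/
def CGKKStmt : Prop :=
  GCTKStmt → NCLKStmt → ABFKStmt → DEDAStmt → DEDBStmt → DEDKStmt → QPRKStmt → IRRKStmt →
  ∀ (R : Type) [CommRing R] [IsDedekindDomain R] (K : Type) [Field K] [Algebra R K]
    [IsFractionRing R K] (O : ValuationSubring K) (π : K), GR R O π → ClB R K →
    ∀ (g : ℕ), 1 ≤ g → ∀ (D : Dat R O) (h : ℕ), D.Ok g → ∀ f ∈ FamS π g D h,
    (RcG K D.T f).Finite → 2 ^ D.T.card ≤ (RcG K D.T f).ncard

end Pool.PRK
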